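import Pool.Agent.W399.WP.Stm

set_option autoImplicit false

/-!
# Window systems are deterministic pushdown automata
-/

namespace Pool.Agent.W933.WP399

open Pool.Agent.W399.WP Relation

/-! ### Finite alphabet -/

section fin

variable {T : Type} (P : WinSys T)

/-- states -/
abbrev QQ : Type := Option ({b : List P.Γ // b.length ≤ P.K} × Bool)

/-- truncation -/
def mk (l : List P.Γ) : {b : List P.Γ // b.length ≤ P.K} := ⟨l.take P.K, by simp⟩

def epsF : QQ P → Option P.Γ → Option (QQ P × List (Option P.Γ))
  | none, Z => some (some (mk P P.init, false), (P.init.drop P.K).map some ++ [Z])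
  | some (b, false), none => some (some (b, true), [none])
  | some (b, false), some x =>
      if b.1.length = P.K then some (some (b, true), [some x])
      else some (some (mk P (b.1 ++ [x]), false), [])
  | some (b, true), Z =>
      match P.e b.1 with
      | some r => some (some (mk P r, false), (r.drop P.K).map some ++ [Z])
      | none => none

def rdF : QQ P → Option P.Γ → T → Option (QQ P × List (Option P.Γ))
  | none, _, _ => none
  | some (_, false), _, _ => none
  | some (b, true), Z, t =>
      match P.e b.1 with
      | some _ => none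
      | none =>
        match P.f t b.1 with
        | some r => some (some (mk P r, false), (r.drop P.K).map some ++ [Z])
        | none => none

lemma epsF_true_some {b : {b : List P.Γ // b.length ≤ P.K}} {Z : Option P.Γ} {r : List P.Γ}
    (h : P.e b.1 = some r) : epsF P (some (b, true)) Z =
      some (some (mk P r, false), (r.drop P.K).map some ++ [Z]) := by
  simp only [epsF, h]

lemma epsF_true_none {b : {b : List P.Γ // b.length ≤ P.K}} {Z : Option P.Γ}
    (h : P.e b.1 = none) : epsF P (some (b, true)) Z = none := by
  simp only [epsF, h]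

lemma rdF_some {b : {b : List P.Γ // b.length ≤ P.K}} {Z : Option P.Γ} {t : T} {r : List P.Γ}
    (h : P.e b.1 = none) (h' : P.f t b.1 = some r) : rdF P (some (b, true)) Z t =
      some (some (mk P r, false), (r.drop P.K).map some ++ [Z]) := by
  simp only [rdF, h, h']

lemma rdF_none {b : {b : List P.Γ // b.length ≤ P.K}} {Z : Option P.Γ} {t : T} {r : List P.Γ}
    (h : P.e b.1 = some r) : rdF P (some (b, true)) Z t = none := by
  simp only [rdF, h]

lemma rdF_none' {b : {b : List P.Γ // b.length ≤ P.K}} {Z : Option P.Γ} {t : T}
    (h : P.f t b.1 = none) : rdF P (some (b, true)) Z t = none := by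
  simp only [rdF, h]
  split <;> rfl

/-- the automaton -/
def DD [Finite P.Γ] : DPDA T where
  Q := QQ P
  Γ := Option P.Γ
  finQ := by
    have : Finite {b : List P.Γ // b.length ≤ P.K} := (List.finite_length_le P.Γ P.K).to_subtype
    infer_instance
  finΓ := inferInstance
  start := none
  bot := none
  acc := {q | ∃ b : {b : List P.Γ // b.length ≤ P.K}, q = some (b, true) ∧ P.e b.1 = none ∧
    b.1 ∈ P.acc}
  eps := epsF P
  rd := rdF P
  det := by
    rintro (_ | ⟨b, _ | _⟩) Z h t
    · rfl
    · rfl
    · cases h' : P.e b.1 with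
      | none => exact absurd (epsF_true_none P h') h
      | some r => exact rdF_none P h'

/-- the moves -/
def MV (c c' : QQ P × List (Option P.Γ) × List T) : Prop :=
  (∃ q Z s w q' g, epsF P q Z = some (q', g) ∧ c = (q, Z :: s, w) ∧ c' = (q', g ++ s, w)) ∨
  (∃ q Z s t w q' g, rdF P q Z t = some (q', g) ∧ c = (q, Z :: s, t :: w) ∧ c' = (q', g ++ s, w))

lemma mv_iff (D : DPDA T) (c c' : D.Q × List D.Γ × List T) : D.Move c c' ↔
    (∃ q Z s w q' g, D.eps q Z = some (q', g) ∧ c = (q, Z :: s, w) ∧ c' = (q', g ++ s, w)) ∨
    (∃ q Z s t w q' g, D.rd q Z t = some (q', g) ∧ c = (q, Z :: s, t :: w) ∧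
      c' = (q', g ++ s, w)) := by
  constructor
  · intro h
    cases h with
    | eps q Z s w q' g h => exact Or.inl ⟨q, Z, s, w, q', g, h, rfl, rfl⟩
    | rd q Z s t w q' g h => exact Or.inr ⟨q, Z, s, t, w, q', g, h, rfl, rfl⟩
  · rintro (⟨q, Z, s, w, q', g, h, rfl, rfl⟩ | ⟨q, Z, s, t, w, q', g, h, rfl, rfl⟩)
    · exact DPDA.Move.eps q Z s w q' g h
    · exact DPDA.Move.rd q Z s t w q' g h

lemma mk_of_le {l : List P.Γ} (h : l.length ≤ P.K) : mk P l = ⟨l, h⟩ :=
  Subtype.ext (List.take_of_length_le h)

lemma mv_eps {q q' : QQ P} {h : List (Option P.Γ)}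
    (H : ∀ Z, epsF P q Z = some (q', h ++ [Z])) (S : List (Option P.Γ)) (hS : S ≠ []) (w : List T) :
    MV P (q, S, w) (q', h ++ S, w) := by
  obtain ⟨Z, S', rfl⟩ := List.exists_cons_of_ne_nil hS
  exact Or.inl ⟨q, Z, S', w, q', h ++ [Z], H Z, rfl, by simp⟩

lemma mv_rd {q q' : QQ P} {h : List (Option P.Γ)} {t : T}
    (H : ∀ Z, rdF P q Z t = some (q', h ++ [Z])) (S : List (Option P.Γ)) (hS : S ≠ []) (w : List T) :
    MV P (q, S, t :: w) (q', h ++ S, w) := by
  obtain ⟨Z, S', rfl⟩ := List.exists_cons_of_ne_nil hS
  exact Or.inr ⟨q, Z, S', t, w, q', h ++ [Z], H Z, rfl, by simp⟩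

/-- filling the buffer -/
lemma fill (w : List T) (rest : List P.Γ) : ∀ (b : List P.Γ) (hb : b.length ≤ P.K),
    ReflTransGen (MV P) (some (⟨b, hb⟩, false), rest.map some ++ [none], w)
      (some (mk P (b ++ rest), true), ((b ++ rest).drop P.K).map some ++ [none], w) := by
  induction rest with
  | nil =>
    intro b hb
    rw [List.append_nil, mk_of_le P hb, List.drop_of_length_le hb]
    exact ReflTransGen.single (Or.inl ⟨some (⟨b, hb⟩, false), none, [], w,
      some (⟨b, hb⟩, true), [none], rfl, rfl, rfl⟩)
  | cons x rest ih =>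
    intro b hb
    by_cases h : b.length = P.K
    · have e1 : mk P (b ++ x :: rest) = ⟨b, hb⟩ := by
        apply Subtype.ext
        show (b ++ x :: rest).take P.K = b
        rw [← h, List.take_left']
        rfl
      have e2 : (b ++ x :: rest).drop P.K = x :: rest := by
        rw [← h, List.drop_left']
        rfl
      rw [e1, e2]
      refine ReflTransGen.single (Or.inl ⟨some (⟨b, hb⟩, false), some x, rest.map some ++ [none], w,
        some (⟨b, hb⟩, true), [some x], ?_, rfl, rfl⟩)
      simp only [epsF]
      rw [if_pos h]
    · have h1 : (b ++ [x]).length ≤ P.K := by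
        rw [List.length_append, List.length_singleton]
        omega
      have h2 := ih (b ++ [x]) h1
      rw [List.append_assoc, List.singleton_append] at h2
      refine ReflTransGen.head (Or.inl ⟨some (⟨b, hb⟩, false), some x, rest.map some ++ [none], w,
        some (⟨b ++ [x], h1⟩, false), [], ?_, rfl, rfl⟩) h2
      simp only [epsF]
      rw [if_neg h, mk_of_le P h1]

lemma fill' (w : List T) (r s : List P.Γ) :
    ReflTransGen (MV P) (some (mk P r, false), (r.drop P.K ++ s).map some ++ [none], w)
      (some (mk P (r ++ s), true), ((r ++ s).drop P.K).map some ++ [none], w) := by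
  have h := fill P w (r.drop P.K ++ s) (r.take P.K) (by simp)
  rw [← List.append_assoc, List.take_append_drop] at h
  exact h

/-- accepting states -/
def AC : Set (QQ P) := {q | ∃ b : {b : List P.Γ // b.length ≤ P.K}, q = some (b, true) ∧
  P.e b.1 = none ∧ b.1 ∈ P.acc}

lemma acc_of {s : List P.Γ} {w : List T} (h : P.Acc s w) :
    ∃ q ∈ AC P, ∃ stk, ReflTransGen (MV P)
      (some (mk P s, true), (s.drop P.K).map some ++ [none], w) (q, stk, []) := by
  induction h with
  | stop s h h' => exact ⟨some (mk P s, true), ⟨mk P s, rfl, h, h'⟩, _, ReflTransGen.refl⟩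
  | eps s r w h _ ih =>
    obtain ⟨q, hq, stk, hr⟩ := ih
    refine ⟨q, hq, stk, ReflTransGen.head ?_ (ReflTransGen.trans (fill' P w r (s.drop P.K)) hr)⟩
    have h1 := mv_eps P (q := some (mk P s, true)) (fun Z => epsF_true_some P (b := mk P s) (Z := Z) h)
      ((s.drop P.K).map some ++ [none]) (by simp) w
    rwa [← List.append_assoc, ← List.map_append] at h1
  | rd s r t w h h' _ ih =>
    obtain ⟨q, hq, stk, hr⟩ := ih
    refine ⟨q, hq, stk, ReflTransGen.head ?_ (ReflTransGen.trans (fill' P w r (s.drop P.K)) hr)⟩
    have h1 := mv_rd P (q := some (mk P s, true))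
      (fun Z => rdF_some P (b := mk P s) (Z := Z) h h')
      ((s.drop P.K).map some ++ [none]) (by simp) w
    rwa [← List.append_assoc, ← List.map_append] at h1

/-- meaning of a configuration -/
def Snd (c : QQ P × List (Option P.Γ) × List T) : Prop :=
  (c.1 = none → c.2.1 = [none] → P.Acc P.init c.2.2) ∧
  ∀ (b : {b : List P.Γ // b.length ≤ P.K}) (fl : Bool) (rest : List P.Γ), c.1 = some (b, fl) →
    c.2.1 = rest.map some ++ [none] → (fl = true → b.1.length = P.K ∨ rest = []) →
    P.Acc (b.1 ++ rest) c.2.2

lemma take_eq {b rest : List P.Γ} (hb : b.length ≤ P.K) (h : b.length = P.K ∨ rest = []) :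
    (b ++ rest).take P.K = b ∧ (b ++ rest).drop P.K = rest := by
  rcases h with h | h
  · rw [← h]
    exact ⟨List.take_left' rfl, List.drop_left' rfl⟩
  · rw [h, List.append_nil, List.take_of_length_le hb, List.drop_of_length_le hb]
    exact ⟨rfl, rfl⟩

lemma snd_of {qf : QQ P} (hq : qf ∈ AC P) {stk : List (Option P.Γ)}
    {c : QQ P × List (Option P.Γ) × List T}
    (h : ReflTransGen (MV P) c (qf, stk, [])) : Snd P c := by
  induction h using ReflTransGen.head_induction_on with
  | refl =>
    obtain ⟨b, hb, he, ha⟩ := hq
    subst hb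
    refine ⟨fun h => absurd h (by simp), fun b' fl rest h1 _ h3 => ?_⟩
    simp only [Option.some.injEq, Prod.mk.injEq] at h1
    obtain ⟨rfl, rfl⟩ := h1
    have h4 := take_eq P b.2 (h3 rfl)
    exact WinSys.Acc.stop _ (by rw [h4.1]; exact he) (by rw [h4.1]; exact ha)
  | head hm _ ih =>
    rcases hm with ⟨q, Z, s, w, q', g, h, rfl, rfl⟩ | ⟨q, Z, s, t, w, q', g, h, rfl, rfl⟩
    · rcases q with _ | ⟨b, _ | _⟩
      · refine ⟨fun _ h2 => ?_, fun b fl rest h1 => absurd h1 (by simp)⟩
        simp only [epsF, Option.some.injEq, Prod.mk.injEq] at h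
        obtain ⟨rfl, rfl⟩ := h
        simp only [List.cons.injEq] at h2
        obtain ⟨rfl, rfl⟩ := h2
        have h3 := ih.2 (mk P P.init) false (P.init.drop P.K) rfl (by simp) (by simp)
        simp only [mk, List.take_append_drop] at h3
        exact h3
      · refine ⟨fun h1 => absurd h1 (by simp), fun b' fl rest h1 h2 h3 => ?_⟩
        simp only [Option.some.injEq, Prod.mk.injEq] at h1
        obtain ⟨rfl, rfl⟩ := h1
        rcases Z with _ | x
        · simp only [epsF, Option.some.injEq, Prod.mk.injEq] at h
          obtain ⟨rfl, rfl⟩ := h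
          rcases rest with _ | ⟨y, rest⟩
          · simp only [List.map_nil, List.nil_append, List.cons.injEq, true_and] at h2
            subst h2
            exact ih.2 b true [] rfl rfl (fun _ => Or.inr rfl)
          · simp at h2
        · rcases rest with _ | ⟨y, rest⟩
          · simp at h2
          · simp only [List.map_cons, List.cons_append, List.cons.injEq, Option.some.injEq] at h2
            obtain ⟨rfl, rfl⟩ := h2
            simp only [epsF] at h
            split_ifs at h with hb
            · simp only [Option.some.injEq, Prod.mk.injEq] at h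
              obtain ⟨rfl, rfl⟩ := h
              exact ih.2 b true (x :: rest) rfl rfl (fun _ => Or.inl hb)
            · simp only [Option.some.injEq, Prod.mk.injEq] at h
              obtain ⟨rfl, rfl⟩ := h
              have hl : (b.1 ++ [x]).length ≤ P.K := by
                rw [List.length_append, List.length_singleton]
                have := b.2
                omega
              have h4 := ih.2 (mk P (b.1 ++ [x])) false rest rfl rfl (by simp)
              rw [mk_of_le P hl] at h4
              simpa using h4
      · refine ⟨fun h1 => absurd h1 (by simp), fun b' fl rest h1 h2 h3 => ?_⟩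
        simp only [Option.some.injEq, Prod.mk.injEq] at h1
        obtain ⟨rfl, rfl⟩ := h1
        cases he : P.e b.1 with
        | none => rw [epsF_true_none P he] at h; simp at h
        | some r =>
          rw [epsF_true_some P he] at h
          simp only [Option.some.injEq, Prod.mk.injEq] at h
          obtain ⟨rfl, rfl⟩ := h
          have h4 := take_eq P b.2 (h3 rfl)
          have h5 := ih.2 (mk P r) false (r.drop P.K ++ rest) rfl (by
            show ((r.drop P.K).map some ++ [Z]) ++ s = _
            rw [List.append_assoc, List.singleton_append, List.map_append, List.append_assoc]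
            congr 1) (by simp)
          simp only [mk, ← List.append_assoc, List.take_append_drop] at h5
          refine WinSys.Acc.eps _ r _ (by rw [h4.1]; exact he) ?_
          rw [h4.2]
          exact h5
    · rcases q with _ | ⟨b, _ | _⟩
      · simp [rdF] at h
      · simp [rdF] at h
      · refine ⟨fun h1 => absurd h1 (by simp), fun b' fl rest h1 h2 h3 => ?_⟩
        simp only [Option.some.injEq, Prod.mk.injEq] at h1
        obtain ⟨rfl, rfl⟩ := h1
        cases he : P.e b.1 with
        | some r => rw [rdF_none P he] at h; simp at h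
        | none =>
          cases hf : P.f t b.1 with
          | none => rw [rdF_none' P hf] at h; simp at h
          | some r =>
            rw [rdF_some P he hf] at h
            simp only [Option.some.injEq, Prod.mk.injEq] at h
            obtain ⟨rfl, rfl⟩ := h
            have h4 := take_eq P b.2 (h3 rfl)
            have h5 := ih.2 (mk P r) false (r.drop P.K ++ rest) rfl (by
              show ((r.drop P.K).map some ++ [Z]) ++ s = _
              rw [List.append_assoc, List.singleton_append, List.map_append, List.append_assoc]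
              congr 1) (by simp)
            simp only [mk, ← List.append_assoc, List.take_append_drop] at h5
            refine WinSys.Acc.rd _ r _ _ (by rw [h4.1]; exact he) (by rw [h4.1]; exact hf) ?_
            rw [h4.2]
            exact h5

theorem fin_case [Finite P.Γ] : IsDCF {w : List T | P.Acc P.init w} := by
  refine ⟨DD P, ?_⟩
  ext w
  constructor
  · rintro ⟨q, hq, s, h⟩
    have h1 : ReflTransGen (MV P) (none, [none], w) (q, s, []) :=
      ReflTransGen.mono (fun a b hab => (mv_iff (DD P) a b).1 hab) _ _ h
    exact (snd_of P hq h1).1 rfl rfl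
  · intro h
    obtain ⟨q, hq, stk, hr⟩ := acc_of P h
    refine ⟨q, hq, stk, ?_⟩
    have h1 := mv_eps P (q := none) (q' := some (mk P P.init, false))
      (h := (P.init.drop P.K).map some) (fun Z => rfl) [none] (by simp) w
    have h2 := fill' P w P.init []
    simp only [List.append_nil] at h2
    have h3 : ReflTransGen (MV P) (none, [none], w) (q, stk, []) :=
      ReflTransGen.head h1 (ReflTransGen.trans h2 hr)
    exact ReflTransGen.mono (fun a b hab => (mv_iff (DD P) a b).2 hab) _ _ h3

end fin

/-! ### The general case -/

section gen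

variable {T : Type}

lemma transfer (P' P : WinSys T) (v : P'.Γ → P.Γ) (hK : P'.K = P.K)
    (he : ∀ w, (P'.e w).map (List.map v) = P.e (w.map v))
    (hf : ∀ t w, (P'.f t w).map (List.map v) = P.f t (w.map v))
    (ha : ∀ w, w ∈ P'.acc ↔ w.map v ∈ P.acc) (s : List P'.Γ) (w : List T) :
    P'.Acc s w ↔ P.Acc (s.map v) w := by
  constructor
  · intro h
    induction h with
    | stop s h h' =>
      refine WinSys.Acc.stop _ ?_ ?_
      · rw [← List.map_take, ← hK, ← he, h]
        rfl
      · rw [← List.map_take, ← hK, ← ha]
        exact h'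
    | eps s r w h _ ih =>
      refine WinSys.Acc.eps _ (r.map v) _ ?_ ?_
      · rw [← List.map_take, ← hK, ← he, h]
        rfl
      · rw [List.map_append, List.map_drop, hK] at ih
        exact ih
    | rd s r t w h h' _ ih =>
      refine WinSys.Acc.rd _ (r.map v) _ _ ?_ ?_ ?_
      · rw [← List.map_take, ← hK, ← he, h]
        rfl
      · rw [← List.map_take, ← hK, ← hf, h']
        rfl
      · rw [List.map_append, List.map_drop, hK] at ih
        exact ih
  · intro h
    generalize hs : s.map v = s' at h
    induction h generalizing s with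
    | stop s' h h' =>
      subst hs
      rw [← List.map_take, ← hK] at h h'
      refine WinSys.Acc.stop _ ?_ ((ha _).2 h')
      rw [← he] at h
      exact Option.map_eq_none_iff.1 h
    | eps s' r w h _ ih =>
      subst hs
      rw [← List.map_take, ← hK, ← he] at h
      obtain ⟨r', h1, h2⟩ := Option.map_eq_some_iff.1 h
      refine WinSys.Acc.eps _ r' _ h1 (ih _ ?_)
      rw [List.map_append, h2, List.map_drop, hK]
    | rd s' r t w h h' _ ih =>
      subst hs
      rw [← List.map_take, ← hK, ← he] at h
      rw [← List.map_take, ← hK, ← hf] at h'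
      obtain ⟨r', h1, h2⟩ := Option.map_eq_some_iff.1 h'
      refine WinSys.Acc.rd _ r' _ _ (Option.map_eq_none_iff.1 h) h1 (ih _ ?_)
      rw [List.map_append, h2, List.map_drop, hK]

variable (P : WinSys T)

open Classical in
/-- the entries in `G` -/
noncomputable def toG (r : List P.Γ) : List {x // x ∈ P.G} :=
  r.filterMap (fun x => if h : x ∈ P.G then some ⟨x, h⟩ else none)

lemma toG_map {r : List P.Γ} (h : ∀ x ∈ r, x ∈ P.G) : (toG P r).map Subtype.val = r := by
  unfold toG
  induction r with
  | nil => rfl
  | cons x r ih =>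
    have hx : x ∈ P.G := h x (by simp)
    rw [List.filterMap_cons_some (b := ⟨x, hx⟩) (by rw [dif_pos hx]), List.map_cons,
      ih (fun y hy => h y (by simp [hy]))]

/-- the system over the finite alphabet -/
noncomputable def PG : WinSys T where
  Γ := {x // x ∈ P.G}
  G := Set.univ
  finG := by
    have := P.finG.to_subtype
    exact Set.finite_univ
  K := P.K
  init := toG P P.init
  initG := fun _ _ => Set.mem_univ _
  e := fun w => (P.e (w.map Subtype.val)).map (toG P)
  f := fun t w => (P.f t (w.map Subtype.val)).map (toG P)
  acc := {w | w.map Subtype.val ∈ P.acc}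
  eG := fun _ _ _ _ _ _ => Set.mem_univ _
  fG := fun _ _ _ _ _ _ _ => Set.mem_univ _

lemma val_mem (s : List {x // x ∈ P.G}) : ∀ x ∈ s.map Subtype.val, x ∈ P.G := by
  intro x hx
  rw [List.mem_map] at hx
  obtain ⟨y, _, rfl⟩ := hx
  exact y.2

lemma back (o : Option (List P.Γ)) (h : ∀ r, o = some r → ∀ x ∈ r, x ∈ P.G) :
    (o.map (toG P)).map (List.map Subtype.val) = o := by
  rcases o with _ | r
  · rfl
  · simp only [Option.map_some]
    rw [toG_map P (h r rfl)]

end gen

theorem sim : S_SIM := by
  intro T P
  have hfin : Finite (PG P).Γ := P.finG.to_subtype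
  obtain ⟨D, hD⟩ := fin_case (PG P)
  refine ⟨D, ?_⟩
  rw [hD]
  ext w
  have h1 := transfer (PG P) P Subtype.val rfl
    (fun w => back P _ fun r hr => P.eG _ r (val_mem P w) hr)
    (fun t w => back P _ fun r hr => P.fG t _ r (val_mem P w) hr) (fun w => Iff.rfl)
    (PG P).init w
  have h2 : (PG P).init.map Subtype.val = P.init := toG_map P P.initG
  have h3 : (PG P).Acc (PG P).init w ↔ P.Acc P.init w := by
    rw [h1]
    exact Eq.to_iff (congrArg (fun l => P.Acc l w) h2)
  exact h3

end Pool.Agent.W933.WP399
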